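import Pool.Agent.Helper43.LO.Goals

set_option autoImplicit false

/-!
# Project LO, packet LIN: the general linear inequality
-/

namespace Pool.Agent.Helper14.LO

open Finset Pool.Agent.Helper33.Schur Pool.Agent.Helper43.LO

/-- monochromatic indicator -/
def Mi (a b c : Fin 3) : ℤ := if a = b ∧ b = c then 1 else 0

theorem key : ∀ (u v w : Bool) (a b c a' b' c' : Fin 3),
    (u = true → a' ≠ a) → (v = true → b' ≠ b) → (w = true → c' ≠ c) →
    Mi (if u then a else a') (if v then b else b') (if w then c else c')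
      + (if u then Mi a' b c - Mi a b c else 0)
      + (if v then Mi a b' c - Mi a b c else 0)
      + (if w then Mi a b c' - Mi a b c else 0) ≤
    Mi a' b' c' + 2 * ((if u ∧ b' ≠ b then 1 else 0) + (if u ∧ c' ≠ c then 1 else 0)
      + (if v ∧ a' ≠ a then 1 else 0) + (if v ∧ c' ≠ c then 1 else 0)
      + (if w ∧ a' ≠ a then 1 else 0) + (if w ∧ b' ≠ b then 1 else 0)) := by
  decide

theorem F_eq (N : ℕ) (χ : ℕ → Fin 3) :
    (F N χ : ℤ) = ∑ q ∈ prs N, Mi (χ q.1) (χ q.2) (χ (q.1 + q.2)) := by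
  unfold F prs Mi
  rw [← Finset.filter_filter, Finset.card_filter]
  push_cast
  rfl

theorem mem_prs {N : ℕ} {q : ℕ × ℕ} :
    q ∈ prs N ↔ 1 ≤ q.1 ∧ 1 ≤ q.2 ∧ q.1 + q.2 ≤ N := by
  unfold prs
  rw [mem_filter, mem_product, mem_Icc, mem_Icc]
  omega

variable {N : ℕ} {D : Finset ℕ} (H : ℕ → ℕ → ℤ)

theorem sum1 (hD : D ⊆ Icc 1 N) :
    ∑ q ∈ prs N, (if q.1 ∈ D then H q.1 q.2 else 0) = ∑ z ∈ D, ∑ y ∈ Icc 1 (N - z), H z y := by
  rw [← Finset.sum_filter, Finset.sum_sigma']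
  refine Finset.sum_nbij' (fun q => ⟨q.1, q.2⟩) (fun s => (s.1, s.2)) ?_ ?_ ?_ ?_ ?_
  · intro q hq
    rw [mem_filter, mem_prs] at hq
    rw [mem_sigma, mem_Icc]
    refine ⟨hq.2, ?_⟩
    dsimp only
    omega
  · intro s hs
    rw [mem_sigma, mem_Icc] at hs
    have h1 := mem_Icc.mp (hD hs.1)
    rw [mem_filter, mem_prs]
    refine ⟨?_, hs.1⟩
    dsimp only
    omega
  · intro q _
    rfl
  · intro s _
    rfl
  · intro q _
    rfl

theorem sum2 (hD : D ⊆ Icc 1 N) :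
    ∑ q ∈ prs N, (if q.2 ∈ D then H q.1 q.2 else 0) = ∑ z ∈ D, ∑ x ∈ Icc 1 (N - z), H x z := by
  rw [← Finset.sum_filter, Finset.sum_sigma']
  refine Finset.sum_nbij' (fun q => ⟨q.2, q.1⟩) (fun s => (s.2, s.1)) ?_ ?_ ?_ ?_ ?_
  · intro q hq
    rw [mem_filter, mem_prs] at hq
    rw [mem_sigma, mem_Icc]
    refine ⟨hq.2, ?_⟩
    dsimp only
    omega
  · intro s hs
    rw [mem_sigma, mem_Icc] at hs
    have h1 := mem_Icc.mp (hD hs.1)
    rw [mem_filter, mem_prs]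
    refine ⟨?_, hs.1⟩
    dsimp only
    omega
  · intro q _
    rfl
  · intro s _
    rfl
  · intro q _
    rfl

theorem sum3 (hD : D ⊆ Icc 1 N) :
    ∑ q ∈ prs N, (if q.1 + q.2 ∈ D then H q.1 q.2 else 0) =
      ∑ z ∈ D, ∑ x ∈ Icc 1 (z - 1), H x (z - x) := by
  rw [← Finset.sum_filter, Finset.sum_sigma']
  refine Finset.sum_nbij' (fun q => ⟨q.1 + q.2, q.1⟩) (fun s => (s.2, s.1 - s.2)) ?_ ?_ ?_ ?_ ?_
  · intro q hq
    rw [mem_filter, mem_prs] at hq
    rw [mem_sigma, mem_Icc]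
    refine ⟨hq.2, ?_⟩
    dsimp only
    omega
  · intro s hs
    rw [mem_sigma, mem_Icc] at hs
    have h1 := mem_Icc.mp (hD hs.1)
    rw [mem_filter, mem_prs]
    have h2 : s.2 + (s.1 - s.2) = s.1 := by omega
    dsimp only
    rw [h2]
    refine ⟨?_, hs.1⟩
    omega
  · intro q hq
    rw [mem_filter, mem_prs] at hq
    dsimp only
    rw [Nat.add_sub_cancel_left]
  · intro s hs
    rw [mem_sigma, mem_Icc] at hs
    have h2 : s.2 + (s.1 - s.2) = s.1 := by omega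
    dsimp only
    rw [h2]
  · intro q _
    dsimp only
    rw [Nat.add_sub_cancel_left]

theorem W_eq (N : ℕ) (f : ℕ → Fin 3) (c : Fin 3) (z : ℕ) :
    (W N f c z : ℤ) = ∑ x ∈ Icc 1 (z - 1), Mi (f x) (f (z - x)) c
      + (∑ y ∈ Icc 1 (N - z), Mi c (f y) (f (z + y)))
      + ∑ x ∈ Icc 1 (N - z), Mi (f x) c (f (x + z)) := by
  have e1 : ∀ a b : Fin 3, Mi a b c = if a = c ∧ b = c then 1 else 0 := by
    intro a b
    unfold Mi
    refine if_congr ?_ rfl rfl
    constructor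
    · rintro ⟨h1, h2⟩
      exact ⟨h1.trans h2, h2⟩
    · rintro ⟨h1, h2⟩
      exact ⟨h1.trans h2.symm, h2⟩
  have e2 : ∀ a b : Fin 3, Mi c a b = if a = c ∧ b = c then 1 else 0 := by
    intro a b
    unfold Mi
    refine if_congr ?_ rfl rfl
    constructor
    · rintro ⟨h1, h2⟩
      exact ⟨h1.symm, h2.symm.trans h1.symm⟩
    · rintro ⟨h1, h2⟩
      exact ⟨h1.symm, h1.trans h2.symm⟩
  have e3 : ∀ a b : Fin 3, Mi a c b = if a = c ∧ b = c then 1 else 0 := by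
    intro a b
    unfold Mi
    refine if_congr ?_ rfl rfl
    constructor
    · rintro ⟨h1, h2⟩
      exact ⟨h1, h2.symm⟩
    · rintro ⟨h1, h2⟩
      exact ⟨h1, h2.symm⟩
  unfold W
  simp only [e1, e2, e3]
  rw [Finset.card_filter, Finset.card_filter]
  push_cast
  rw [two_mul, ← add_assoc]
  congr 1
  congr 1
  refine Finset.sum_congr rfl fun y _ => ?_
  rw [add_comm z y]

/-- counting members of `dif` -/
theorem cnt (N : ℕ) (χ f : ℕ → Fin 3) (S : Finset ℕ) (g : ℕ → ℕ)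
    (hg : Set.InjOn g S) (hm : ∀ x ∈ S, g x ∈ Icc 1 N) :
    ∑ x ∈ S, (if χ (g x) ≠ f (g x) then (1 : ℤ) else 0) ≤ ((dif N χ f).card : ℤ) := by
  rw [← Finset.sum_filter, Finset.sum_const, nsmul_eq_mul, mul_one]
  norm_cast
  refine Finset.card_le_card_of_injOn g ?_ ?_
  · intro x hx
    rw [mem_coe, mem_filter] at hx
    unfold dif
    rw [mem_coe, mem_filter]
    exact ⟨hm x hx.1, hx.2⟩
  · intro x hx y hy h
    rw [mem_coe, mem_filter] at hx hy
    exact hg hx.1 hy.1 h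

theorem goalLIN : G_LIN := by
  intro N χ f D1 hD1
  classical
  set D := dif N χ f with hDdef
  have hI : D1 ⊆ Icc 1 N := fun x hx => (mem_filter.mp (hD1 hx)).1
  have hne : ∀ x, x ∈ D1 → χ x ≠ f x := fun x hx => (mem_filter.mp (hD1 hx)).2
  -- pointwise inequality
  have hpt : ∀ q ∈ prs N,
      Mi (if q.1 ∈ D1 then f q.1 else χ q.1) (if q.2 ∈ D1 then f q.2 else χ q.2)
        (if q.1 + q.2 ∈ D1 then f (q.1 + q.2) else χ (q.1 + q.2))
      + (if q.1 ∈ D1 then Mi (χ q.1) (f q.2) (f (q.1 + q.2))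
          - Mi (f q.1) (f q.2) (f (q.1 + q.2)) else 0)
      + (if q.2 ∈ D1 then Mi (f q.1) (χ q.2) (f (q.1 + q.2))
          - Mi (f q.1) (f q.2) (f (q.1 + q.2)) else 0)
      + (if q.1 + q.2 ∈ D1 then Mi (f q.1) (f q.2) (χ (q.1 + q.2))
          - Mi (f q.1) (f q.2) (f (q.1 + q.2)) else 0) ≤
      Mi (χ q.1) (χ q.2) (χ (q.1 + q.2))
      + 2 * ((if q.1 ∈ D1 then (if χ q.2 ≠ f q.2 then 1 else 0) else 0)
        + (if q.1 ∈ D1 then (if χ (q.1 + q.2) ≠ f (q.1 + q.2) then 1 else 0) else 0)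
        + (if q.2 ∈ D1 then (if χ q.1 ≠ f q.1 then 1 else 0) else 0)
        + (if q.2 ∈ D1 then (if χ (q.1 + q.2) ≠ f (q.1 + q.2) then 1 else 0) else 0)
        + (if q.1 + q.2 ∈ D1 then (if χ q.1 ≠ f q.1 then 1 else 0) else 0)
        + (if q.1 + q.2 ∈ D1 then (if χ q.2 ≠ f q.2 then 1 else 0) else 0)) := by
    intro q _
    have h := key (decide (q.1 ∈ D1)) (decide (q.2 ∈ D1)) (decide (q.1 + q.2 ∈ D1))
      (f q.1) (f q.2) (f (q.1 + q.2)) (χ q.1) (χ q.2) (χ (q.1 + q.2))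
      (fun h => hne _ (of_decide_eq_true h)) (fun h => hne _ (of_decide_eq_true h))
      (fun h => hne _ (of_decide_eq_true h))
    simp only [decide_eq_true_eq] at h
    simp only [ite_and] at h
    exact h
  have hsum := Finset.sum_le_sum hpt
  simp only [Finset.sum_add_distrib, ← Finset.mul_sum] at hsum
  rw [sum1 (fun x y => Mi (χ x) (f y) (f (x + y)) - Mi (f x) (f y) (f (x + y))) hI,
    sum2 (fun x y => Mi (f x) (χ y) (f (x + y)) - Mi (f x) (f y) (f (x + y))) hI,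
    sum3 (fun x y => Mi (f x) (f y) (χ (x + y)) - Mi (f x) (f y) (f (x + y))) hI,
    sum1 (fun _ y => if χ y ≠ f y then 1 else 0) hI,
    sum1 (fun x y => if χ (x + y) ≠ f (x + y) then 1 else 0) hI,
    sum2 (fun x _ => if χ x ≠ f x then 1 else 0) hI,
    sum2 (fun x y => if χ (x + y) ≠ f (x + y) then 1 else 0) hI,
    sum3 (fun x _ => if χ x ≠ f x then 1 else 0) hI,
    sum3 (fun _ y => if χ y ≠ f y then 1 else 0) hI] at hsum
  -- the bad pairs
  have b : ∀ (S : ℕ → Finset ℕ) (g : ℕ → ℕ → ℕ),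
      (∀ z ∈ D1, Set.InjOn (g z) (S z)) → (∀ z ∈ D1, ∀ x ∈ S z, g z x ∈ Icc 1 N) →
      ∑ z ∈ D1, ∑ x ∈ S z, (if χ (g z x) ≠ f (g z x) then (1 : ℤ) else 0) ≤
        (D.card : ℤ) * D1.card := by
    intro S g h1 h2
    refine (Finset.sum_le_sum fun z hz => cnt N χ f (S z) (g z) (h1 z hz) (h2 z hz)).trans ?_
    rw [Finset.sum_const, nsmul_eq_mul, mul_comm]
  have b1 := b (fun z => Icc 1 (N - z)) (fun _ y => y) (fun z _ x _ y _ h => h)
    (fun z hz x hx => by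
      have h1 := mem_Icc.mp (hI hz)
      rw [mem_Icc] at hx ⊢
      omega)
  have b2 := b (fun z => Icc 1 (N - z)) (fun z y => z + y)
    (fun z _ x _ y _ h => by dsimp only at h; omega)
    (fun z hz x hx => by
      have h1 := mem_Icc.mp (hI hz)
      rw [mem_Icc] at hx ⊢
      omega)
  have b4 := b (fun z => Icc 1 (N - z)) (fun z y => y + z)
    (fun z _ x _ y _ h => by dsimp only at h; omega)
    (fun z hz x hx => by
      have h1 := mem_Icc.mp (hI hz)
      rw [mem_Icc] at hx ⊢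
      omega)
  have b5 := b (fun z => Icc 1 (z - 1)) (fun _ y => y) (fun z _ x _ y _ h => h)
    (fun z hz x hx => by
      have h1 := mem_Icc.mp (hI hz)
      rw [mem_Icc] at hx ⊢
      omega)
  have b6 := b (fun z => Icc 1 (z - 1)) (fun z y => z - y)
    (fun z _ x hx y hy h => by
      rw [mem_coe, mem_Icc] at hx hy
      dsimp only at h
      omega)
    (fun z hz x hx => by
      have h1 := mem_Icc.mp (hI hz)
      rw [mem_Icc] at hx ⊢
      omega)
  -- the first order terms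
  have hW : ∑ z ∈ D1, ((W N f (χ z) z : ℤ) - W N f (f z) z) =
      (∑ z ∈ D1, ∑ y ∈ Icc 1 (N - z), (Mi (χ z) (f y) (f (z + y)) - Mi (f z) (f y) (f (z + y))))
      + (∑ z ∈ D1, ∑ x ∈ Icc 1 (N - z),
          (Mi (f x) (χ z) (f (x + z)) - Mi (f x) (f z) (f (x + z))))
      + ∑ z ∈ D1, ∑ x ∈ Icc 1 (z - 1), (Mi (f x) (f (z - x)) (χ (x + (z - x)))
          - Mi (f x) (f (z - x)) (f (x + (z - x)))) := by
    rw [← Finset.sum_add_distrib, ← Finset.sum_add_distrib]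
    refine Finset.sum_congr rfl fun z hz => ?_
    have h3 : ∑ x ∈ Icc 1 (z - 1), (Mi (f x) (f (z - x)) (χ (x + (z - x)))
          - Mi (f x) (f (z - x)) (f (x + (z - x)))) =
        ∑ x ∈ Icc 1 (z - 1), (Mi (f x) (f (z - x)) (χ z) - Mi (f x) (f (z - x)) (f z)) := by
      refine Finset.sum_congr rfl fun x hx => ?_
      rw [mem_Icc] at hx
      rw [show x + (z - x) = z by omega]
    rw [h3, W_eq, W_eq, Finset.sum_sub_distrib, Finset.sum_sub_distrib, Finset.sum_sub_distrib]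
    ring
  rw [F_eq, F_eq, hW]
  have hF2 : ∑ q ∈ prs N, Mi ((fun x => if x ∈ D1 then f x else χ x) q.1)
      ((fun x => if x ∈ D1 then f x else χ x) q.2)
      ((fun x => if x ∈ D1 then f x else χ x) (q.1 + q.2)) =
      ∑ q ∈ prs N, Mi (if q.1 ∈ D1 then f q.1 else χ q.1) (if q.2 ∈ D1 then f q.2 else χ q.2)
        (if q.1 + q.2 ∈ D1 then f (q.1 + q.2) else χ (q.1 + q.2)) := rfl
  rw [hF2]
  linarith

end Pool.Agent.Helper14.LO
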